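import Mathlib

set_option autoImplicit false

namespace Pool.Agent.Lib.MP_e56372_nt

lemma abs_cross {a b c d A B : ℝ} (ha : |a| ≤ A) (hb : |b| ≤ B) (hc : |c| ≤ A) (hd : |d| ≤ B) :
    |a * b - c * d| ≤ 2 * A * B := by
  have hA : 0 ≤ A := (abs_nonneg _).trans ha
  have h1 : |a * b| ≤ A * B := by rw [abs_mul]; gcongr
  have h2 : |c * d| ≤ A * B := by rw [abs_mul]; gcongr
  linarith [abs_sub (a * b) (c * d)]

/-- data of a primal vector of a class, near the point `x`. -/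
structure PV (Q t l G q X Y : ℝ) : Prop where
  q0 : 0 < q
  q1 : Q < 256 * G ^ 4 * q
  q2 : G ^ 4 * q ≤ Q
  y : t ^ 2 * l / G * Q * q * |Y| < 64 * t ^ 12
  x : |X| ≤ 2 * l * q

section
variable {Q t l G : ℝ}

lemma PV.bq {q X Y : ℝ} (h : PV Q t l G q X Y) (hG : 1 ≤ G) : |q| ≤ Q / G ^ 4 := by
  rw [abs_of_pos h.q0, le_div_iff₀ (by positivity)]; linarith [h.q2]

lemma PV.bX {q X Y : ℝ} (h : PV Q t l G q X Y) (hG : 1 ≤ G) (hl : 0 < l) :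
    |X| ≤ 2 * l * (Q / G ^ 4) := by
  have := h.bq hG
  rw [abs_of_pos h.q0] at this
  exact h.x.trans (by gcongr)

lemma PV.bY {q X Y : ℝ} (h : PV Q t l G q X Y) (hG : 1 ≤ G) (hl : 0 < l) (ht : 0 < t)
    (hQ : 0 < Q) : |Y| ≤ 2 ^ 14 * t ^ 10 * G ^ 5 / (l * Q ^ 2) := by
  have h1 := h.y
  have h2 := h.q1
  have hG0 : 0 < G := by linarith
  rw [le_div_iff₀ (by positivity)]
  have h3 : t ^ 2 * (l * Q * q * |Y|) < t ^ 2 * (64 * t ^ 10 * G) := by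
    have : t ^ 2 * l / G * Q * q * |Y| * G < 64 * t ^ 12 * G := mul_lt_mul_of_pos_right h1 hG0
    have e : t ^ 2 * l / G * Q * q * |Y| * G = t ^ 2 * (l * Q * q * |Y|) := by field_simp
    rw [e] at this; linarith
  have h4 := lt_of_mul_lt_mul_left h3 (by positivity)
  calc |Y| * (l * Q ^ 2) = (|Y| * l * Q) * Q := by ring
    _ ≤ (|Y| * l * Q) * (256 * G ^ 4 * q) := by gcongr
    _ = 256 * G ^ 4 * (l * Q * q * |Y|) := by ring
    _ ≤ 256 * G ^ 4 * (64 * t ^ 10 * G) := by gcongr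
    _ = _ := by ring

lemma primal_bounds {q X Y q' X' Y' : ℝ} (h : PV Q t l G q X Y) (h' : PV Q t l G q' X' Y')
    (hG : 1 ≤ G) (hl : 0 < l) (ht : 0 < t) (hQ : 0 < Q) :
    |q * Y' - q' * Y| ≤ 2 ^ 15 * t ^ 10 * G / (l * Q) ∧
    |q' * X - q * X'| ≤ 4 * l * Q ^ 2 / G ^ 8 ∧
    |X * Y' - X' * Y| ≤ 2 ^ 16 * t ^ 10 * G / Q := by
  have hG0 : 0 < G := by linarith
  refine ⟨(abs_cross (h.bq hG) (h'.bY hG hl ht hQ) (h'.bq hG) (h.bY hG hl ht hQ)).trans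
    (le_of_eq ?_), (abs_cross (h'.bq hG) (h.bX hG hl) (h.bq hG) (h'.bX hG hl)).trans
    (le_of_eq ?_), (abs_cross (h.bX hG hl) (h'.bY hG hl ht hQ) (h'.bX hG hl)
    (h.bY hG hl ht hQ)).trans (le_of_eq ?_)⟩
  all_goals field_simp
  all_goals ring

lemma PV.lQ {q X Y : ℝ} (h : PV Q t l G q X Y) (hG : 1 ≤ G) (hl : 0 < l) (ht : 0 < t)
    (hY : 1 ≤ 2 * Q * |Y|) : l * Q ≤ 2 ^ 15 * t ^ 10 * G ^ 5 := by
  have h1 := h.y
  have h2 := h.q1
  have hq := h.q0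
  have hG0 : 0 < G := by linarith
  have h3 : t ^ 2 * (l * Q * q * |Y|) < t ^ 2 * (64 * t ^ 10 * G) := by
    have : t ^ 2 * l / G * Q * q * |Y| * G < 64 * t ^ 12 * G := mul_lt_mul_of_pos_right h1 hG0
    have e : t ^ 2 * l / G * Q * q * |Y| * G = t ^ 2 * (l * Q * q * |Y|) := by field_simp
    rw [e] at this; linarith
  have h4 := lt_of_mul_lt_mul_left h3 (by positivity)
  calc l * Q ≤ l * (256 * G ^ 4 * q) * 1 := by rw [mul_one]; gcongr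
    _ ≤ l * (256 * G ^ 4 * q) * (2 * Q * |Y|) := by gcongr
    _ = 512 * G ^ 4 * (l * Q * q * |Y|) := by ring
    _ ≤ 512 * G ^ 4 * (64 * t ^ 10 * G) := by gcongr
    _ = _ := by ring

/-- data of a dual vector of a class, near the point `x`. -/
structure DV (Q t l H a b L : ℝ) : Prop where
  p : H ^ 4 * (|a| * max 1 |b|) ≤ t ^ 8 * Q
  a1 : t ^ 6 * H ≤ t ^ 2 * l / H * Q * |a|
  a2 : t ^ 2 * l / H * Q * |a| < 64 * (t ^ 6 * H)
  x : |L| ≤ 2 * l * |a|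

variable {H : ℝ}

lemma DV.bounds {a b L : ℝ} (h : DV Q t l H a b L) (hH : 1 ≤ H) (hl : 0 < l) (ht : 0 < t)
    (hQ : 0 < Q) : |a| ≤ 64 * (t ^ 4 * H ^ 2 / (l * Q)) ∧
      max 1 |b| ≤ t ^ 4 * l * Q ^ 2 / H ^ 6 ∧ |L| ≤ 128 * t ^ 4 * H ^ 2 / Q := by
  have hH0 : 0 < H := by linarith
  have e : t ^ 2 * l / H * Q * |a| = (t ^ 2 / H) * (|a| * (l * Q)) := by ring
  have e2 : t ^ 6 * H = (t ^ 2 / H) * (t ^ 4 * H ^ 2) := by field_simp
  have h1 := h.a1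
  have h2 := h.a2
  rw [e, e2] at h1 h2
  have h3 := le_of_mul_le_mul_left h1 (by positivity)
  have h4 : |a| * (l * Q) < 64 * (t ^ 4 * H ^ 2) :=
    lt_of_mul_lt_mul_left (a := t ^ 2 / H) (by linarith) (by positivity)
  have ha : |a| ≤ 64 * (t ^ 4 * H ^ 2 / (l * Q)) := by
    rw [← mul_div_assoc, le_div_iff₀ (by positivity)]; exact h4.le
  refine ⟨ha, ?_, ?_⟩
  · rw [le_div_iff₀ (by positivity)]
    have hM : 0 < max 1 |b| := lt_max_of_lt_left one_pos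
    have : t ^ 4 * (max 1 |b| * H ^ 6) ≤ t ^ 4 * (t ^ 4 * l * Q ^ 2) := by
      calc t ^ 4 * (max 1 |b| * H ^ 6) = H ^ 4 * max 1 |b| * (t ^ 4 * H ^ 2) := by ring
        _ ≤ H ^ 4 * max 1 |b| * (|a| * (l * Q)) := by gcongr
        _ = H ^ 4 * (|a| * max 1 |b|) * (l * Q) := by ring
        _ ≤ t ^ 8 * Q * (l * Q) := mul_le_mul_of_nonneg_right h.p (by positivity)
        _ = _ := by ring
    exact le_of_mul_le_mul_left this (by positivity)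
  · calc |L| ≤ 2 * l * (64 * (t ^ 4 * H ^ 2 / (l * Q))) := h.x.trans (by gcongr)
      _ = _ := by field_simp; ring

lemma dual_bounds {a b L a' b' L' : ℝ} (h : DV Q t l H a b L) (h' : DV Q t l H a' b' L')
    (hH : 1 ≤ H) (hl : 0 < l) (ht : 0 < t) (hQ : 0 < Q) :
    |a * b' - a' * b| ≤ 128 * t ^ 8 * Q ∧ |a * L' - a' * L| ≤ 2 ^ 14 * t ^ 12 ∧
    |b' * L - b * L'| * |a * L' - a' * L| ≤ 2 ^ 22 * t ^ 16 / Q ∧
    |a * b' - a' * b| * |a * L' - a' * L| ≤ 2 ^ 21 * t ^ 16 / (l * Q) := by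
  have hH0 : 0 < H := by linarith
  obtain ⟨a1, b1, c1⟩ := h.bounds hH hl ht hQ
  obtain ⟨a2, b2, c2⟩ := h'.bounds hH hl ht hQ
  have b3 := (le_max_right _ _).trans b1
  have b4 := (le_max_right _ _).trans b2
  have b5 := (le_max_left _ _).trans b1
  have hq := abs_cross a1 b4 a2 b3
  have hX := abs_cross b4 c1 b3 c2
  have hY := abs_cross a1 c2 a2 c1
  have hq' : |a * b' - a' * b| ≤ 128 * t ^ 8 * Q / H ^ 4 := hq.trans (le_of_eq (by
    field_simp; ring))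
  have hX' : |b' * L - b * L'| ≤ 256 * t ^ 8 * l * Q / H ^ 4 := hX.trans (le_of_eq (by
    field_simp; ring))
  have hY' : |a * L' - a' * L| ≤ 2 ^ 14 * t ^ 8 * H ^ 4 / (l * Q ^ 2) := hY.trans (le_of_eq (by
    field_simp; ring))
  refine ⟨hq'.trans (div_le_self (by positivity) (one_le_pow₀ hH)), ?_, ?_, ?_⟩
  · refine hY'.trans ?_
    rw [div_le_iff₀ (by positivity)]
    rw [le_div_iff₀ (by positivity)] at b5
    have : H ^ 4 ≤ H ^ 6 := pow_le_pow_right₀ hH (by norm_num)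
    calc 2 ^ 14 * t ^ 8 * H ^ 4 ≤ 2 ^ 14 * t ^ 8 * (t ^ 4 * l * Q ^ 2) := by
          gcongr; linarith
      _ = _ := by ring
  · calc _ ≤ (256 * t ^ 8 * l * Q / H ^ 4) * (2 ^ 14 * t ^ 8 * H ^ 4 / (l * Q ^ 2)) := by gcongr
      _ = _ := by field_simp; ring
  · calc _ ≤ (128 * t ^ 8 * Q / H ^ 4) * (2 ^ 14 * t ^ 8 * H ^ 4 / (l * Q ^ 2)) := by gcongr
      _ = _ := by field_simp; ring

end

end Pool.Agent.Lib.MP_e56372_nt
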