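import Pool.Agent.Lib.MP_e56372_nt.Game
import Pool.Agent.Lib.MP_e56372_nt.Pairs

set_option autoImplicit false
open Finset

namespace Pool.Agent.Lib.MP_e56372_nt

structure Setup where
  ζ : ℝ
  κ : ℝ
  Q : ℕ → ℝ
  t : ℕ → ℝ
  act : ℕ → Finset ℕ
  hZ2 : ∀ b e : ℤ, b ≠ 0 → 1 ≤ κ * |(b : ℝ)| * |b * ζ + e|
  hZ1 : ∀ k, ∀ b e : ℤ, b ≠ 0 → |(b : ℝ)| ≤ Q k → 1 ≤ 2 * Q k * |b * ζ + e|
  t0 : ∀ k, 0 < t k
  t1 : ∀ k, t k ≤ 1 / 2 ^ 24
  hE : ∀ k, 2 ^ 33 * t k ^ 20 * κ < 1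
  hQ : ∀ k, 1 ≤ t k ^ 20 * Q k
  hact : ∀ n k, 64 ^ n ≤ Q k ^ 3 → Q k ≤ (64 ^ n) ^ 4 → k ∈ act n
  hsum : ∀ n, ∑ k ∈ act n, t k ≤ 1 / 64

namespace Setup
variable (S : Setup)

noncomputable def w (i : Bool × ℕ × ℕ) : ℝ := S.t i.2.1 / 2 ^ i.2.2

noncomputable def Λ (n : ℕ) : Finset (Bool × ℕ × ℕ) :=
  univ ×ˢ (S.act n ×ˢ range ((S.act n).sup fun k => ⌈S.Q k⌉₊))

noncomputable def ρ (n k j : ℕ) : ℝ := S.t k ^ 2 * (1 / 64 ^ n) / 4 ^ j

def CP (n k j : ℕ) : Set ℝ :=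
  {c | ∃ q p r : ℤ, c = p / q ∧ 0 < q ∧ S.Q k < 256 * (4 ^ j) ^ 4 * q ∧ (4 ^ j) ^ 4 * q ≤ S.Q k ∧
    S.ρ n k j * S.Q k * q * |q * S.ζ - r| < 64 * S.t k ^ 12}

def CD (n k j : ℕ) : Set ℝ :=
  {c | ∃ a b e : ℤ, c = -(b * S.ζ + e) / a ∧ a ≠ 0 ∧
    (4 ^ j) ^ 4 * (|(a : ℝ)| * max 1 |(b : ℝ)|) ≤ S.t k ^ 8 * S.Q k ∧
    S.t k ^ 6 * 4 ^ j ≤ S.ρ n k j * S.Q k * |(a : ℝ)| ∧
    S.ρ n k j * S.Q k * |(a : ℝ)| < 64 * (S.t k ^ 6 * 4 ^ j)}

def C (n : ℕ) (i : Bool × ℕ × ℕ) : Set ℝ := bif i.1 then S.CP n i.2.1 i.2.2 else S.CD n i.2.1 i.2.2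

lemma rad_w (n : ℕ) (β : Bool) (k j : ℕ) : rad S.w n (β, k, j) = S.ρ n k j := by
  unfold rad w ρ
  have : (4 : ℝ) ^ j = (2 ^ j) ^ 2 := by rw [← pow_mul, mul_comm, pow_mul]; norm_num
  rw [this]; field_simp

lemma tle (k : ℕ) : S.t k ≤ 1 := (S.t1 k).trans (by norm_num)

lemma tpow (k a b : ℕ) (h : b < 24 * a) : 2 ^ b * S.t k ^ a < 1 := by
  have h1 : S.t k ^ a ≤ (1 / 2 ^ 24) ^ a := pow_le_pow_left₀ (S.t0 k).le (S.t1 k) a
  have h2 : (2 : ℝ) ^ b < 2 ^ (24 * a) := pow_lt_pow_right₀ (by norm_num) h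
  rw [div_pow, one_pow, ← pow_mul, le_div_iff₀ (by positivity)] at h1
  have := pow_pos (S.t0 k) a
  nlinarith

lemma hQ' (k a : ℕ) (h : a ≤ 20) : 1 ≤ S.t k ^ a * S.Q k := by
  have h0 := S.hQ k
  have hQ : 0 < S.Q k := by
    by_contra h'; push Not at h'
    have := pow_pos (S.t0 k) 20
    nlinarith
  have := pow_le_pow_of_le_one (S.t0 k).le (S.tle k) h
  nlinarith

lemma Q1 (k : ℕ) : 1 ≤ S.Q k := by simpa using S.hQ' k 0 (by norm_num)

lemma Q0 (k : ℕ) : 0 < S.Q k := lt_of_lt_of_le one_pos (S.Q1 k)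

lemma ρ_le (n k j : ℕ) : S.ρ n k j < 1 / 64 ^ n := by
  unfold ρ
  have h1 := S.tpow k 2 0 (by norm_num)
  have h2 : (1 : ℝ) ≤ 4 ^ j := one_le_pow₀ (by norm_num)
  rw [div_lt_iff₀ (by positivity)]
  have : (0 : ℝ) < 1 / 64 ^ n := by positivity
  nlinarith

lemma ρ_pos (n k j : ℕ) : 0 < S.ρ n k j := by
  unfold ρ; have := S.t0 k; positivity

lemma mem_Λ {n k j : ℕ} (β : Bool) (hk : k ∈ S.act n) (hj : ((4 : ℝ) ^ j) ^ 4 ≤ S.Q k) :
    (β, k, j) ∈ S.Λ n := by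
  simp only [Λ, mem_product, mem_univ, true_and, mem_range]
  refine ⟨hk, lt_of_lt_of_le ?_ (le_sup (f := fun k => ⌈S.Q k⌉₊) hk)⟩
  have h1 : (j : ℝ) < 4 ^ j := by exact_mod_cast Nat.lt_pow_self (by norm_num)
  have h2 : (4 : ℝ) ^ j ≤ (4 ^ j) ^ 4 := le_self_pow₀ (one_le_pow₀ (by norm_num)) (by norm_num)
  exact Nat.lt_ceil.2 (by linarith)

lemma sum_w (n : ℕ) : ∑ i ∈ S.Λ n, S.w i ≤ 1 / 16 := by
  unfold Λ w
  rw [sum_product]
  simp only [sum_const, card_univ, Fintype.card_bool, nsmul_eq_mul, Nat.cast_ofNat]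
  rw [sum_product]
  have : ∀ k ∈ S.act n, ∑ j ∈ range ((S.act n).sup fun k => ⌈S.Q k⌉₊), S.t k / 2 ^ j
      ≤ 2 * S.t k := by
    intro k _
    have h := sum_geometric_two_le ((S.act n).sup fun k => ⌈S.Q k⌉₊)
    calc _ = S.t k * ∑ j ∈ range ((S.act n).sup fun k => ⌈S.Q k⌉₊), (1 / 2 : ℝ) ^ j := by
          rw [mul_sum]; refine sum_congr rfl fun j _ => ?_
          rw [div_pow, one_pow]; ring
      _ ≤ S.t k * 2 := mul_le_mul_of_nonneg_left h (S.t0 k).le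
      _ = _ := by ring
  have h2 := sum_le_sum this
  rw [← mul_sum] at h2
  linarith [S.hsum n]

lemma stage {k : ℕ} {x y : ℝ} (h1 : x ≤ S.Q k ^ 3) (h2 : 64 * y ≤ x) (h0 : 0 ≤ y)
    (h3 : S.Q k ≤ y ^ 4) : ∃ m, k ∈ S.act m ∧ 64 ^ m ≤ x ∧ x < 64 * 64 ^ m := by
  have hy : 1 ≤ y := by
    by_contra h; push Not at h
    have := pow_lt_one₀ h0 h (by norm_num : 4 ≠ 0)
    linarith [S.Q1 k]
  obtain ⟨m, a, b⟩ := exists_nat_pow_near (x := x) (y := 64) (by linarith) (by norm_num)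
  rw [pow_succ] at b
  refine ⟨m, S.hact m k (a.trans h1) (h3.trans (pow_le_pow_left₀ h0 (by linarith) 4)), a,
    by linarith⟩

lemma primal_cover (k : ℕ) {q : ℤ} (p r : ℤ) (hq : 0 < q) (hqQ : (q : ℝ) ≤ S.Q k)
    (hY : |q * S.ζ - r| ≤ 1) : ∃ m j, (true, k, j) ∈ S.Λ m ∧ (p / q : ℝ) ∈ S.C m (true, k, j) ∧
      S.t k ^ 12 ≤ S.ρ m k j * S.Q k * q * |q * S.ζ - r| := by
  have hq0 : (0 : ℝ) < q := by exact_mod_cast hq
  have hq1 : (1 : ℝ) ≤ q := by exact_mod_cast hq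
  have hQ := S.Q0 k
  have ht := S.t0 k
  obtain ⟨j, j1, j2⟩ := exists_nat_pow_near (x := S.Q k / q) (y := 256)
    ((one_le_div hq0).2 hqQ) (by norm_num)
  have e : (256 : ℝ) ^ j = (4 ^ j) ^ 4 := by rw [← pow_mul, mul_comm, pow_mul]; norm_num
  rw [pow_succ, e, div_lt_iff₀ hq0] at j2
  rw [e, le_div_iff₀ hq0] at j1
  set G : ℝ := 4 ^ j with hG
  have hG1 : 1 ≤ G := one_le_pow₀ (by norm_num)
  have hG4 : G ^ 4 ≤ S.Q k := by nlinarith [pow_pos (lt_of_lt_of_le one_pos hG1) 4]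
  have hZ := S.hZ2 q (-r) hq.ne'
  rw [abs_of_pos hq0, Int.cast_neg, ← sub_eq_add_neg] at hZ
  set Y := |q * S.ζ - r| with hYd
  have hY0 : 0 ≤ Y := abs_nonneg _
  have hE := S.hE k
  have hqY : 2 ^ 33 * S.t k ^ 20 ≤ q * Y := by
    have h1 : 0 ≤ q * Y := by positivity
    have h2 : 0 < 2 ^ 33 * S.t k ^ 20 := by positivity
    nlinarith
  obtain ⟨m, hm, m1, m2⟩ := S.stage (k := k) (x := S.Q k * q * Y / (G * S.t k ^ 10))
    (y := S.Q k * S.t k ^ 10 / G) (by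
      rw [div_le_iff₀ (by positivity)]
      have := S.hQ' k 10 (by norm_num)
      calc S.Q k * q * Y ≤ S.Q k * S.Q k * 1 := by gcongr
        _ ≤ S.Q k * S.Q k * (1 * (S.t k ^ 10 * S.Q k)) := by gcongr; linarith
        _ ≤ S.Q k * S.Q k * (G * (S.t k ^ 10 * S.Q k)) := by gcongr
        _ = _ := by ring) (by
      rw [le_div_iff₀ (by positivity)]
      calc 64 * (S.Q k * S.t k ^ 10 / G) * (G * S.t k ^ 10) = S.Q k * (64 * S.t k ^ 20) := by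
            field_simp
        _ ≤ S.Q k * (q * Y) := by
            refine mul_le_mul_of_nonneg_left ?_ hQ.le
            have := pow_pos ht 20; nlinarith
        _ = _ := by ring) (by positivity) (by
      rw [div_pow, le_div_iff₀ (by positivity)]
      have := S.hQ k
      calc S.Q k * G ^ 4 ≤ S.Q k * S.Q k * 1 ^ 2 := by rw [one_pow, mul_one]; gcongr
        _ ≤ S.Q k * S.Q k * (S.t k ^ 20 * S.Q k) ^ 2 := by gcongr
        _ = _ := by ring)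
  have e2 : S.ρ m k j * S.Q k * q * Y
      = S.t k ^ 12 * (S.Q k * q * Y / (G * S.t k ^ 10)) / 64 ^ m := by
    unfold ρ; rw [← hG]; field_simp
  refine ⟨m, j, S.mem_Λ _ hm hG4, ⟨q, p, r, rfl, hq, by linarith, j1, ?_⟩, ?_⟩
  · rw [← hYd, e2, div_lt_iff₀ (by positivity)]
    have := mul_lt_mul_of_pos_left m2 (pow_pos ht 12)
    linarith
  · rw [e2, le_div_iff₀ (by positivity)]
    gcongr

lemma dual_cover (k : ℕ) {a : ℤ} (b e : ℤ) (ha : a ≠ 0)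
    (hP : |(a : ℝ)| * max 1 |(b : ℝ)| ≤ S.t k ^ 8 * S.Q k) :
    ∃ m j, (false, k, j) ∈ S.Λ m ∧ (-(b * S.ζ + e) / a : ℝ) ∈ S.C m (false, k, j) ∧
      S.t k ^ 8 * S.Q k < 256 * (4 ^ j) ^ 4 * (|(a : ℝ)| * max 1 |(b : ℝ)|) ∧
      S.t k ^ 6 * 4 ^ j ≤ S.ρ m k j * S.Q k * |(a : ℝ)| := by
  have ha1 : (1 : ℝ) ≤ |(a : ℝ)| := by
    rw [← Int.cast_abs]; exact_mod_cast Int.one_le_abs ha
  have hM : (1 : ℝ) ≤ max 1 |(b : ℝ)| := le_max_left _ _
  set A := |(a : ℝ)| with hA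
  set M := max 1 |(b : ℝ)| with hMd
  have hP1 : 1 ≤ A * M := by nlinarith
  have hQ := S.Q0 k
  have ht := S.t0 k
  obtain ⟨j, j1, j2⟩ := exists_nat_pow_near (x := S.t k ^ 8 * S.Q k / (A * M)) (y := 256)
    ((one_le_div (by positivity)).2 hP) (by norm_num)
  have e : (256 : ℝ) ^ j = (4 ^ j) ^ 4 := by rw [← pow_mul, mul_comm, pow_mul]; norm_num
  rw [pow_succ (256 : ℝ), e, div_lt_iff₀ (by positivity)] at j2
  rw [e, le_div_iff₀ (by positivity)] at j1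
  set H : ℝ := 4 ^ j with hH
  have hH1 : 1 ≤ H := one_le_pow₀ (by norm_num)
  have ht8 : S.t k ^ 8 * S.Q k ≤ S.Q k := by
    have := pow_le_one₀ (n := 8) ht.le (S.tle k); nlinarith
  have hH4 : H ^ 4 ≤ S.Q k := by nlinarith [pow_pos (lt_of_lt_of_le one_pos hH1) 4]
  have hAQ : A ≤ S.Q k := by nlinarith
  obtain ⟨m, hm, m1, m2⟩ := S.stage (k := k) (x := S.Q k * A / (S.t k ^ 4 * H ^ 2))
    (y := S.Q k / H ^ 2) (by
      rw [div_le_iff₀ (by positivity)]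
      have := S.hQ' k 4 (by norm_num)
      have h2 : 1 ≤ H ^ 2 := one_le_pow₀ hH1
      calc S.Q k * A ≤ S.Q k * S.Q k * (1 * 1) := by rw [mul_one, mul_one]; gcongr
        _ ≤ S.Q k * S.Q k * (H ^ 2 * (S.t k ^ 4 * S.Q k)) := by gcongr
        _ = _ := by ring) (by
      rw [le_div_iff₀ (by positivity)]
      have := S.tpow k 4 6 (by norm_num)
      calc 64 * (S.Q k / H ^ 2) * (S.t k ^ 4 * H ^ 2) = S.Q k * (2 ^ 6 * S.t k ^ 4) := by
            field_simp; norm_num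
        _ ≤ S.Q k * A := by gcongr; linarith) (by positivity) (by
      rw [div_pow, le_div_iff₀ (by positivity)]
      have := S.Q1 k
      calc S.Q k * (H ^ 2) ^ 4 = S.Q k * (H ^ 4) ^ 2 * 1 := by ring
        _ ≤ S.Q k * S.Q k ^ 2 * S.Q k := by gcongr
        _ = _ := by ring)
  have e2 : S.ρ m k j * S.Q k * A
      = S.t k ^ 6 * H * (S.Q k * A / (S.t k ^ 4 * H ^ 2)) / 64 ^ m := by
    unfold ρ; rw [← hH]; field_simp
  have h3 : S.t k ^ 6 * H ≤ S.ρ m k j * S.Q k * A := by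
    rw [e2, le_div_iff₀ (by positivity)]
    gcongr
  refine ⟨m, j, S.mem_Λ _ hm hH4, ⟨a, b, _, rfl, ha, j1, h3, ?_⟩, by linarith, h3⟩
  rw [← hA, ← hH, e2, div_lt_iff₀ (by positivity)]
  have := mul_lt_mul_of_pos_left m2 (show 0 < S.t k ^ 6 * H by positivity)
  linarith

lemma near_left {n : ℕ} {x ρ c : ℝ} (h : Near n x ρ c) (hρ : ρ < 1 / 64 ^ n) :
    |x - c| ≤ 2 * (1 / 64 ^ n) := by
  obtain ⟨y, hy, h2⟩ := h
  rw [abs_lt] at h2
  rw [abs_le]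
  constructor <;> linarith [hy.1, hy.2]

lemma left_mem (n : ℕ) (x : ℝ) : x ∈ J n x :=
  Set.left_mem_Icc.2 (by have : (0 : ℝ) < 1 / 64 ^ n := by positivity
                         linarith)

lemma lt_of_ρ {n m k j : ℕ} (h : 1 / 64 ^ n ≤ S.ρ m k j) : m < n := by
  have h2 := h.trans_lt (S.ρ_le m k j)
  rw [one_div_lt_one_div (by positivity) (by positivity)] at h2
  exact (pow_lt_pow_iff_right₀ (by norm_num)).1 h2

lemma uniq_primal {n : ℕ} {x : ℝ}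
    (h : ∀ m < n, ∀ i ∈ S.Λ m, 1 / 64 ^ n ≤ rad S.w m i → ¬ Meets S.w S.C n x m i) (k j : ℕ) :
    Uniq S.w S.C n x n (true, k, j) := by
  rintro c ⟨q, p, r, rfl, hq, a1, a2, a3⟩ c' ⟨q', p', r', rfl, hq', b1, b2, b3⟩ hn hn'
  by_contra hne
  rw [rad_w] at hn hn'
  have hx := near_left hn (S.ρ_le n k j)
  have hx' := near_left hn' (S.ρ_le n k j)
  have hq0 : (0 : ℝ) < q := by exact_mod_cast hq
  have hq0' : (0 : ℝ) < q' := by exact_mod_cast hq'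
  set l : ℝ := 1 / 64 ^ n with hl
  have hl0 : 0 < l := by positivity
  have hQ := S.Q0 k
  have ht := S.t0 k
  set G : ℝ := 4 ^ j with hG
  have hG1 : 1 ≤ G := one_le_pow₀ (by norm_num)
  have hX : ∀ {q p : ℝ}, 0 < q → |x - p / q| ≤ 2 * l → |q * x - p| ≤ 2 * l * q := by
    intro q p hq h
    have : q * x - p = (x - p / q) * q := by field_simp
    rw [this, abs_mul, abs_of_pos hq]; gcongr
  have v : PV (S.Q k) (S.t k) l G q (q * x - p) (q * S.ζ - r) := ⟨hq0, a1, a2, a3, hX hq0 hx⟩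
  have v' : PV (S.Q k) (S.t k) l G q' (q' * x - p') (q' * S.ζ - r') :=
    ⟨hq0', b1, b2, b3, hX hq0' hx'⟩
  obtain ⟨ba, bb, bL⟩ := primal_bounds v v' hG1 hl0 ht hQ
  set a : ℤ := r * q' - q * r' with ha
  set b : ℤ := q * p' - p * q' with hb
  set e : ℤ := p * r' - r * p' with he
  have ea : q * (q' * S.ζ - r') - q' * (q * S.ζ - r) = (a : ℝ) := by rw [ha]; push_cast; ring
  have eb : q' * (q * x - p) - q * (q' * x - p') = (b : ℝ) := by rw [hb]; push_cast; ring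
  have eL : (q * x - p) * (q' * S.ζ - r') - (q' * x - p') * (q * S.ζ - r)
      = a * x + (b * S.ζ + e) := by rw [ha, hb, he]; push_cast; ring
  rw [ea] at ba; rw [eb] at bb; rw [eL] at bL
  have hb0 : b ≠ 0 := by
    intro h0
    apply hne
    have : (b : ℝ) = 0 := by exact_mod_cast h0
    rw [hb] at this; push_cast at this
    field_simp; linarith
  by_cases ha0 : a = 0
  · have hZ := S.hZ2 b e hb0
    rw [ha0] at bL
    simp only [Int.cast_zero, zero_mul, zero_add] at bL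
    have hqQ : |(q : ℝ)| ≤ S.Q k := (v.bq hG1).trans (div_le_self hQ.le (one_le_pow₀ hG1))
    have hZ1 := S.hZ1 k q (-r) hq.ne' hqQ
    rw [Int.cast_neg, ← sub_eq_add_neg] at hZ1
    have hlQ := v.lQ hG1 hl0 ht hZ1
    have h1 : |(b : ℝ)| * |b * S.ζ + e| ≤ 2 ^ 33 * S.t k ^ 20 := by
      calc _ ≤ (4 * l * S.Q k ^ 2 / G ^ 8) * (2 ^ 16 * S.t k ^ 10 * G / S.Q k) := by gcongr
        _ = 2 ^ 18 * S.t k ^ 10 * (l * S.Q k) / G ^ 7 := by field_simp; norm_num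
        _ ≤ 2 ^ 18 * S.t k ^ 10 * (2 ^ 15 * S.t k ^ 10 * G ^ 5) / G ^ 7 := by gcongr
        _ = 2 ^ 33 * S.t k ^ 20 / G ^ 2 := by field_simp
        _ ≤ _ := div_le_self (by positivity) (one_le_pow₀ hG1)
    have hE := S.hE k
    have h2 : 0 ≤ |(b : ℝ)| * |b * S.ζ + e| := by positivity
    have hκ : 0 < S.κ := by
      by_contra h'; push Not at h'
      nlinarith
    nlinarith
  · have hb1 : (1 : ℝ) ≤ |(b : ℝ)| := by
      rw [← Int.cast_abs]; exact_mod_cast Int.one_le_abs hb0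
    have ha1 : (0 : ℝ) < |(a : ℝ)| := abs_pos.2 (by exact_mod_cast ha0)
    have hP : |(a : ℝ)| * max 1 |(b : ℝ)| ≤ 2 ^ 17 * S.t k ^ 10 * S.Q k / G ^ 7 := by
      rw [max_eq_right hb1]
      calc _ ≤ (2 ^ 15 * S.t k ^ 10 * G / (l * S.Q k)) * (4 * l * S.Q k ^ 2 / G ^ 8) := by gcongr
        _ = _ := by field_simp; norm_num
    have hP2 : |(a : ℝ)| * max 1 |(b : ℝ)| ≤ S.t k ^ 8 * S.Q k := by
      refine (hP.trans (div_le_self (by positivity) (one_le_pow₀ hG1))).trans ?_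
      have := S.tpow k 2 17 (by norm_num)
      calc _ = (2 ^ 17 * S.t k ^ 2) * (S.t k ^ 8 * S.Q k) := by ring
        _ ≤ 1 * (S.t k ^ 8 * S.Q k) := by gcongr
        _ = _ := one_mul _
    obtain ⟨m, i, hΛ, hC, c1, c2⟩ := S.dual_cover k b e ha0 hP2
    set H : ℝ := 4 ^ i with hH
    have hH1 : 1 ≤ H := one_le_pow₀ (by norm_num)
    have hGH : G ≤ H := by
      have h1 : S.t k ^ 8 * S.Q k < 256 * H ^ 4 * (2 ^ 17 * S.t k ^ 10 * S.Q k / G ^ 7) :=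
        c1.trans_le (by gcongr)
      have h2 := S.tpow k 2 25 (by norm_num)
      have h3 : S.t k ^ 8 * S.Q k * G ^ 7 < S.t k ^ 8 * S.Q k * (2 ^ 25 * S.t k ^ 2 * H ^ 4) := by
        rw [← mul_div_assoc, lt_div_iff₀ (by positivity)] at h1
        linarith
      have h4 := lt_of_mul_lt_mul_left h3 (by positivity)
      have h5 : G ^ 4 ≤ G ^ 7 := pow_le_pow_right₀ hG1 (by norm_num)
      have h6 : G ^ 4 ≤ H ^ 4 := by nlinarith [pow_pos (lt_of_lt_of_le one_pos hH1) 4]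
      exact le_of_pow_le_pow_left₀ (by norm_num) (by linarith) h6
    have hρ := S.ρ_pos m k i
    have hlρ : l ≤ S.ρ m k i := by
      have h2 := S.tpow k 4 15 (by norm_num)
      rw [le_div_iff₀ (by positivity)] at ba
      have : l * (S.Q k * |(a : ℝ)|) ≤ S.ρ m k i * (S.Q k * |(a : ℝ)|) := by
        calc l * (S.Q k * |(a : ℝ)|) ≤ (2 ^ 15 * S.t k ^ 4) * (S.t k ^ 6 * G) := by linarith
          _ ≤ 1 * (S.t k ^ 6 * H) := by gcongr
          _ ≤ _ := by linarith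
      exact le_of_mul_le_mul_right this (by positivity)
    refine h m (S.lt_of_ρ hlρ) _ hΛ (by rw [rad_w]; exact hlρ) ⟨_, hC, x, left_mem n x, ?_⟩
    rw [rad_w]
    have ha' : (a : ℝ) ≠ 0 := by exact_mod_cast ha0
    have e3 : x - -(b * S.ζ + e) / a = (a * x + (b * S.ζ + e)) / a := by field_simp; ring
    rw [e3, abs_div, div_lt_iff₀ ha1]
    have h2 := S.tpow k 4 16 (by norm_num)
    rw [le_div_iff₀ hQ] at bL
    have : |a * x + (b * S.ζ + e)| * S.Q k < S.ρ m k i * |(a : ℝ)| * S.Q k := by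
      calc _ ≤ (2 ^ 16 * S.t k ^ 4) * (S.t k ^ 6 * G) := by linarith
        _ < 1 * (S.t k ^ 6 * G) := by gcongr
        _ ≤ 1 * (S.t k ^ 6 * H) := by gcongr
        _ ≤ _ := by linarith
    exact lt_of_mul_lt_mul_right this hQ.le

lemma no_primal {n : ℕ} {x : ℝ}
    (h : ∀ m < n, ∀ i ∈ S.Λ m, 1 / 64 ^ n ≤ rad S.w m i → ¬ Meets S.w S.C n x m i) (k : ℕ)
    {q : ℤ} (p r : ℤ) (hq : 0 < q) (h1 : (q : ℝ) ≤ S.Q k) (h2 : |q * S.ζ - r| ≤ 1)
    (h3 : |q * x - p| * |q * S.ζ - r| * S.Q k < S.t k ^ 12)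
    (h4 : q * |q * S.ζ - r| * (1 / 64 ^ n * S.Q k) ≤ S.t k ^ 12) : False := by
  obtain ⟨m, j, hΛ, hC, c1⟩ := S.primal_cover k p r hq h1 h2
  have hq0 : (0 : ℝ) < q := by exact_mod_cast hq
  have hQ := S.Q0 k
  have ht := S.t0 k
  have hρ := S.ρ_pos m k j
  have hY : 0 < |q * S.ζ - r| := by
    refine lt_of_le_of_ne (abs_nonneg _) fun h0 => ?_
    rw [← h0] at c1
    have := pow_pos ht 12
    linarith
  have hlρ : 1 / 64 ^ n ≤ S.ρ m k j := by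
    have : 1 / 64 ^ n * (S.Q k * q * |q * S.ζ - r|) ≤ S.ρ m k j * (S.Q k * q * |q * S.ζ - r|) := by
      linarith
    exact le_of_mul_le_mul_right this (by positivity)
  refine h m (S.lt_of_ρ hlρ) _ hΛ (by rw [rad_w]; exact hlρ) ⟨_, hC, x, left_mem n x, ?_⟩
  rw [rad_w]
  have e3 : x - p / q = (q * x - p) / q := by field_simp
  rw [e3, abs_div, abs_of_pos hq0, div_lt_iff₀ hq0]
  have : |q * x - p| * (|q * S.ζ - r| * S.Q k) < S.ρ m k j * q * (|q * S.ζ - r| * S.Q k) := by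
    linarith
  exact lt_of_mul_lt_mul_right this (by positivity)

lemma uniq_dual {n : ℕ} {x : ℝ}
    (h : ∀ m < n, ∀ i ∈ S.Λ m, 1 / 64 ^ n ≤ rad S.w m i → ¬ Meets S.w S.C n x m i) (k j : ℕ) :
    Uniq S.w S.C n x n (false, k, j) := by
  rintro c ⟨a, b, e, rfl, ha, a1, a2, a3⟩ c' ⟨a', b', e', rfl, ha', b1, b2, b3⟩ hn hn'
  by_contra hne
  rw [rad_w] at hn hn'
  have hx := near_left hn (S.ρ_le n k j)
  have hx' := near_left hn' (S.ρ_le n k j)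
  have ha0 : (a : ℝ) ≠ 0 := by exact_mod_cast ha
  have ha0' : (a' : ℝ) ≠ 0 := by exact_mod_cast ha'
  have hl0 : (0 : ℝ) < 1 / 64 ^ n := by positivity
  have hQ := S.Q0 k
  have ht := S.t0 k
  have hH1 : (1 : ℝ) ≤ 4 ^ j := one_le_pow₀ (by norm_num)
  have hX : ∀ {a u : ℝ}, a ≠ 0 → |x - -u / a| ≤ 2 * (1 / 64 ^ n) →
      |a * x + u| ≤ 2 * (1 / 64 ^ n) * |a| := by
    intro a u ha h
    have : a * x + u = (x - -u / a) * a := by field_simp; ring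
    rw [this, abs_mul]; gcongr
  have v : DV (S.Q k) (S.t k) (1 / 64 ^ n) (4 ^ j) a b (a * x + (b * S.ζ + e)) :=
    ⟨a1, a2, a3, hX ha0 hx⟩
  have v' : DV (S.Q k) (S.t k) (1 / 64 ^ n) (4 ^ j) a' b' (a' * x + (b' * S.ζ + e')) :=
    ⟨b1, b2, b3, hX ha0' hx'⟩
  obtain ⟨d1, d2, d3, d4⟩ := dual_bounds v v' hH1 hl0 ht hQ
  set q : ℤ := a * b' - a' * b with hq
  set p : ℤ := b * e' - e * b' with hp
  set r : ℤ := e * a' - a * e' with hr
  have eq : (a : ℝ) * b' - a' * b = q := by rw [hq]; push_cast; ring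
  have eX : b' * (a * x + (b * S.ζ + e)) - b * (a' * x + (b' * S.ζ + e')) = q * x - p := by
    rw [hq, hp]; push_cast; ring
  have eY : a * (a' * x + (b' * S.ζ + e')) - a' * (a * x + (b * S.ζ + e)) = q * S.ζ - r := by
    rw [hq, hr]; push_cast; ring
  rw [eq] at d1 d4; rw [eX] at d3; rw [eY] at d2 d3 d4
  have hY1 : |q * S.ζ - r| < 1 := d2.trans_lt (S.tpow k 12 14 (by norm_num))
  have hq0 : q ≠ 0 := by
    intro h0
    have hr0 : r = 0 := by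
      by_contra hr0
      have : (1 : ℝ) ≤ |(r : ℝ)| := by
        rw [← Int.cast_abs]; exact_mod_cast Int.one_le_abs hr0
      rw [h0] at hY1; simp at hY1; linarith
    apply hne
    rw [h0, hr0] at eY
    simp only [Int.cast_zero, zero_mul, sub_zero] at eY
    field_simp; linarith
  have e1 : |(q : ℝ)| ≤ S.Q k := by
    have := S.tpow k 8 7 (by norm_num)
    nlinarith
  have e3 : |q * x - p| * |q * S.ζ - r| * S.Q k < S.t k ^ 12 := by
    rw [le_div_iff₀ hQ] at d3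
    have := S.tpow k 4 22 (by norm_num)
    calc _ ≤ (2 ^ 22 * S.t k ^ 4) * S.t k ^ 12 := by linarith
      _ < 1 * S.t k ^ 12 := by gcongr
      _ = _ := one_mul _
  have e4 : |(q : ℝ)| * |q * S.ζ - r| * (1 / 64 ^ n * S.Q k) ≤ S.t k ^ 12 := by
    rw [le_div_iff₀ (by positivity)] at d4
    have := S.tpow k 4 21 (by norm_num)
    calc _ ≤ (2 ^ 21 * S.t k ^ 4) * S.t k ^ 12 := by linarith
      _ ≤ 1 * S.t k ^ 12 := by gcongr
      _ = _ := one_mul _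
  rcases lt_or_gt_of_ne hq0 with hneg | hpos
  · have hq' : (q : ℝ) < 0 := by exact_mod_cast hneg
    have f1 : |((-q : ℤ) : ℝ) * S.ζ - (-r : ℤ)| = |q * S.ζ - r| := by
      rw [← abs_neg]; congr 1; push_cast; ring
    have f2 : |((-q : ℤ) : ℝ) * x - (-p : ℤ)| = |q * x - p| := by
      rw [← abs_neg]; congr 1; push_cast; ring
    rw [abs_of_neg hq'] at e1 e4
    refine S.no_primal h k (q := -q) (-p) (-r) (by omega) (by push_cast; exact e1)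
      (by rw [f1]; exact hY1.le) (by rw [f1, f2]; exact e3) (by rw [f1]; push_cast; exact e4)
  · have hq' : (0 : ℝ) < q := by exact_mod_cast hpos
    rw [abs_of_pos hq'] at e1 e4
    exact S.no_primal h k p r hpos e1 hY1.le e3 e4

theorem core : ∃ ξ : ℝ, ∀ k, ∀ q p r : ℤ, 0 < q → (q : ℝ) ≤ S.Q k → |q * S.ζ - r| ≤ 1 →
    S.t k ^ 12 ≤ S.Q k * (|q * ξ - p| * |q * S.ζ - r|) := by
  obtain ⟨ξ, hξ⟩ := game (Λ := S.Λ) (w := S.w) (C := S.C)
    (fun i => by unfold w; have := S.t0 i.2.1; positivity) S.sum_w (by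
      rintro n x h ⟨β, k, j⟩ _
      cases β
      · exact S.uniq_dual h k j
      · exact S.uniq_primal h k j)
  refine ⟨ξ, fun k q p r hq h1 h2 => ?_⟩
  obtain ⟨m, j, hΛ, hC, c1⟩ := S.primal_cover k p r hq h1 h2
  have := hξ m _ hΛ _ hC
  rw [rad_w] at this
  have hq0 : (0 : ℝ) < q := by exact_mod_cast hq
  have e3 : ξ - p / q = (q * ξ - p) / q := by field_simp
  rw [e3, abs_div, abs_of_pos hq0, le_div_iff₀ hq0] at this
  have hQ := S.Q0 k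
  calc _ ≤ _ := c1
    _ = S.Q k * (S.ρ m k j * q * |q * S.ζ - r|) := by ring
    _ ≤ _ := by gcongr

end Setup

end Pool.Agent.Lib.MP_e56372_nt
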