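import Mathlib

set_option autoImplicit false

namespace Pool.Agent.Lib.MP_e56372_nt

/-- the minimum of `‖qξ‖ ‖qζ‖` over integers `0 < q ≤ Q`. -/
noncomputable def mmin (ξ ζ Q : ℝ) : ℝ :=
  ⨅ q : {q : ℕ // 0 < q ∧ (q : ℝ) ≤ Q},
    |((q.1 : ℝ) * ξ) - (round ((q.1 : ℝ) * ξ) : ℝ)| *
    |((q.1 : ℝ) * ζ) - (round ((q.1 : ℝ) * ζ) : ℝ)|

end Pool.Agent.Lib.MP_e56372_nt
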