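import Mathlib

set_option autoImplicit false
open Finset

namespace Pool.Agent.Lib.MP_e56372_nt

section game
variable {ι : Type} (Λ : ℕ → Finset ι) (w : ι → ℝ) (C : ℕ → ι → Set ℝ)

/-- radius of the object `i` switched on at stage `m`. -/
noncomputable def rad (w : ι → ℝ) (m : ℕ) (i : ι) : ℝ := w i ^ 2 / 64 ^ m

/-- the interval of stage `n` with left end `x`. -/
def J (n : ℕ) (x : ℝ) : Set ℝ := Set.Icc x (x + 1 / 64 ^ n)

def Near (n : ℕ) (x : ℝ) (ρ c : ℝ) : Prop := ∃ y ∈ J n x, |y - c| < ρ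

def Meets (n : ℕ) (x : ℝ) (m : ℕ) (i : ι) : Prop := ∃ c ∈ C m i, Near n x (rad w m i) c

open Classical in
noncomputable def Phi (N n : ℕ) (x : ℝ) : ℝ :=
  ∑ m ∈ range N, ∑ i ∈ Λ m, if Meets w C n x m i then w i * 8 ^ n / 8 ^ m else 0

def Uniq (n : ℕ) (x : ℝ) (m : ℕ) (i : ι) : Prop :=
  ∀ c ∈ C m i, ∀ c' ∈ C m i, Near n x (rad w m i) c → Near n x (rad w m i) c' → c = c'

def Inv (n : ℕ) (x : ℝ) : Prop :=
  Phi Λ w C (n + 1) n x ≤ 1 / 8 ∧ ∀ m ≤ n, ∀ i ∈ Λ m, Uniq w C n x m i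

variable {Λ w C}

lemma term_le_Phi (hw : ∀ i, 0 ≤ w i) {N n m : ℕ} {x : ℝ} {i : ι} (hm : m < N) (hi : i ∈ Λ m)
    (h : Meets w C n x m i) : w i * 8 ^ n / 8 ^ m ≤ Phi Λ w C N n x := by
  classical
  unfold Phi
  have h0 : ∀ m : ℕ, ∀ i, 0 ≤ (if Meets w C n x m i then w i * 8 ^ n / 8 ^ m else 0) := by
    intro m i
    split_ifs
    · have := hw i; positivity
    · exact le_rfl
  calc w i * 8 ^ n / 8 ^ m = (if Meets w C n x m i then w i * 8 ^ n / 8 ^ m else 0) := by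
        rw [if_pos h]
    _ ≤ ∑ i ∈ Λ m, (if Meets w C n x m i then w i * 8 ^ n / 8 ^ m else 0) :=
        single_le_sum (f := fun i => if Meets w C n x m i then w i * 8 ^ n / 8 ^ m else 0)
          (fun j _ => h0 m j) hi
    _ ≤ _ := single_le_sum (f := fun m => ∑ i ∈ Λ m,
          (if Meets w C n x m i then w i * 8 ^ n / 8 ^ m else 0))
          (fun m _ => sum_nonneg fun j _ => h0 m j) (mem_range.2 hm)

lemma child_sub (n : ℕ) (x : ℝ) (a : ℕ) (ha : a < 16) :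
    J (n + 1) (x + 4 * a / 64 ^ (n + 1)) ⊆ J n x := by
  intro y hy
  have h64 : (0 : ℝ) < 64 ^ (n + 1) := by positivity
  have ha' : (a : ℝ) ≤ 15 := by exact_mod_cast Nat.lt_succ_iff.1 ha
  have e : (1 : ℝ) / 64 ^ n = 64 / 64 ^ (n + 1) := by field_simp; ring
  constructor
  · have : (0 : ℝ) ≤ 4 * a / 64 ^ (n + 1) := by positivity
    linarith [hy.1]
  · have h2 := hy.2
    have : 4 * (a : ℝ) / 64 ^ (n + 1) + 1 / 64 ^ (n + 1) ≤ 64 / 64 ^ (n + 1) := by
      rw [← add_div]; exact div_le_div_of_nonneg_right (by linarith) h64.le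
    rw [e]; linarith

lemma Near.mono {n n' : ℕ} {x x' ρ c : ℝ} (h : J n' x' ⊆ J n x) (hn : Near n' x' ρ c) :
    Near n x ρ c := by
  obtain ⟨y, hy, h2⟩ := hn
  exact ⟨y, h hy, h2⟩

lemma rad_eq (m n : ℕ) (i : ι) : rad w m i = (w i * 8 ^ n / 8 ^ m) ^ 2 / 64 ^ n := by
  unfold rad
  have e1 : (64 : ℝ) ^ m = (8 ^ m) ^ 2 := by rw [← pow_mul, mul_comm, pow_mul]; norm_num
  have e2 : (64 : ℝ) ^ n = (8 ^ n) ^ 2 := by rw [← pow_mul, mul_comm, pow_mul]; norm_num
  rw [e1, e2]; field_simp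

lemma step (hw : ∀ i, 0 ≤ w i) {n : ℕ} {x : ℝ} (h : Inv Λ w C n x) :
    ∃ x', J (n + 1) x' ⊆ J n x ∧ Phi Λ w C (n + 1) (n + 1) x' ≤ 1 / 16 := by
  classical
  set ch : ℕ → ℝ := fun a => x + 4 * a / 64 ^ (n + 1) with hch
  have key : ∑ a ∈ range 16, Phi Λ w C (n + 1) (n + 1) (ch a) ≤ 8 * Phi Λ w C (n + 1) n x := by
    unfold Phi
    rw [sum_comm, mul_sum]
    refine sum_le_sum fun m hm => ?_
    rw [sum_comm, mul_sum]
    refine sum_le_sum fun i hi => ?_
    have hmn : m ≤ n := Nat.lt_succ_iff.1 (mem_range.1 hm)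
    by_cases hM : Meets w C n x m i
    · rw [if_pos hM, ← sum_filter, sum_const]
      have hc : (Finset.filter (fun a => Meets w C (n + 1) (ch a) m i) (range 16)).card ≤ 1 := by
        rw [card_le_one]
        intro a ha b hb
        rw [Finset.mem_filter, Finset.mem_range] at ha hb
        obtain ⟨c, hc, hn⟩ := ha.2
        obtain ⟨c', hc', hn'⟩ := hb.2
        have hcc : c = c' := h.2 m hmn i hi c hc c' hc'
          (hn.mono (child_sub n x a ha.1)) (hn'.mono (child_sub n x b hb.1))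
        subst hcc
        obtain ⟨y, hy, h1⟩ := hn
        obtain ⟨y', hy', h2⟩ := hn'
        have ht := (term_le_Phi hw (Nat.lt_succ_of_le hmn) hi hM).trans h.1
        have h64 : (0 : ℝ) < 64 ^ (n + 1) := by positivity
        have hr : rad w m i ≤ 1 / 64 ^ (n + 1) := by
          rw [rad_eq m n i]
          have h0 : 0 ≤ w i * 8 ^ n / 8 ^ m := by have := hw i; positivity
          have : (w i * 8 ^ n / 8 ^ m) ^ 2 ≤ (1 / 8) ^ 2 := pow_le_pow_left₀ h0 ht 2
          calc _ ≤ (1 / 8) ^ 2 / (64 : ℝ) ^ n := div_le_div_of_nonneg_right this (by positivity)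
            _ = _ := by field_simp; ring
        set u : ℝ := 1 / 64 ^ (n + 1) with hu
        have hu0 : 0 < u := by positivity
        have ea : ∀ a : ℕ, ch a = x + 4 * a * u := fun a => by simp only [hch, hu]; ring
        simp only [J, ea, ← hu, Set.mem_Icc] at hy hy'
        rw [abs_lt] at h1 h2
        by_contra hab
        rcases Nat.lt_or_gt_of_ne hab with hlt | hlt
        · have : (a : ℝ) + 1 ≤ b := by exact_mod_cast hlt
          nlinarith [hy.2, hy'.1]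
        · have : (b : ℝ) + 1 ≤ a := by exact_mod_cast hlt
          nlinarith [hy.1, hy'.2]
      have h0 : 0 ≤ w i * 8 ^ (n + 1) / 8 ^ m := by have := hw i; positivity
      have hc' : ((Finset.filter (fun a => Meets w C (n + 1) (ch a) m i) (range 16)).card : ℝ)
          ≤ 1 := by exact_mod_cast hc
      rw [nsmul_eq_mul]
      calc _ ≤ 1 * (w i * 8 ^ (n + 1) / 8 ^ m) := mul_le_mul_of_nonneg_right hc' h0
        _ = _ := by ring
    · rw [if_neg hM, mul_zero]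
      refine le_of_eq (sum_eq_zero fun a ha => if_neg ?_)
      rintro ⟨c, hc, hn⟩
      exact hM ⟨c, hc, hn.mono (child_sub n x a (mem_range.1 ha))⟩
  have h1 : ∑ a ∈ range 16, Phi Λ w C (n + 1) (n + 1) (ch a) ≤ ∑ _a ∈ range 16, (1 / 16 : ℝ) := by
    have := h.1
    simp only [sum_const, card_range, nsmul_eq_mul]
    norm_num; linarith
  obtain ⟨a, ha, h2⟩ := exists_le_of_sum_le (by simp) h1
  exact ⟨ch a, child_sub n x a (mem_range.1 ha), h2⟩

lemma inv_of (hw : ∀ i, 0 ≤ w i) (hS : ∀ n, ∑ i ∈ Λ n, w i ≤ 1 / 16)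
    (hU : ∀ n x, (∀ m < n, ∀ i ∈ Λ m, 1 / 64 ^ n ≤ rad w m i → ¬ Meets w C n x m i) →
      ∀ i ∈ Λ n, Uniq w C n x n i) {n : ℕ} {x : ℝ} (h1 : Phi Λ w C n n x ≤ 1 / 16)
    (h2 : ∀ m < n, ∀ i ∈ Λ m, Uniq w C n x m i) : Inv Λ w C n x := by
  classical
  constructor
  · have : Phi Λ w C (n + 1) n x ≤ Phi Λ w C n n x + ∑ i ∈ Λ n, w i := by
      unfold Phi
      rw [sum_range_succ]
      refine add_le_add le_rfl (sum_le_sum fun i _ => ?_)
      split_ifs
      · rw [mul_div_assoc, div_self (by positivity), mul_one]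
      · exact hw i
    linarith [hS n]
  · intro m hm i hi
    rcases hm.lt_or_eq with hm | rfl
    · exact h2 m hm i hi
    · refine hU m x (fun k hk j hj hr hM => ?_) i hi
      have ht := (term_le_Phi hw hk hj hM).trans h1
      rw [rad_eq k m j] at hr
      have h0 : 0 ≤ w j * 8 ^ m / 8 ^ k := by have := hw j; positivity
      have h3 : (w j * 8 ^ m / 8 ^ k) ^ 2 ≤ (1 / 16) ^ 2 := pow_le_pow_left₀ h0 ht 2
      have h4 := (div_le_div_iff_of_pos_right (by positivity : (0 : ℝ) < 64 ^ m)).1 hr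
      linarith

/-- The potential game: a point avoiding every object. -/
theorem game (hw : ∀ i, 0 ≤ w i) (hS : ∀ n, ∑ i ∈ Λ n, w i ≤ 1 / 16)
    (hU : ∀ n x, (∀ m < n, ∀ i ∈ Λ m, 1 / 64 ^ n ≤ rad w m i → ¬ Meets w C n x m i) →
      ∀ i ∈ Λ n, Uniq w C n x n i) :
    ∃ ξ : ℝ, ∀ n, ∀ i ∈ Λ n, ∀ c ∈ C n i, rad w n i ≤ |ξ - c| := by
  have h0 : Inv Λ w C 0 0 := inv_of hw hS hU (by simp [Phi]) (by simp)
  have hs : ∀ n (x : {x // Inv Λ w C n x}), ∃ x' : {x // Inv Λ w C (n + 1) x},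
      J (n + 1) x'.1 ⊆ J n x.1 := by
    intro n x
    obtain ⟨x', h1, h2⟩ := step hw x.2
    refine ⟨⟨x', inv_of hw hS hU h2 fun m hm i hi c hc c' hc' a b => ?_⟩, h1⟩
    exact x.2.2 m (Nat.lt_succ_iff.1 hm) i hi c hc c' hc' (a.mono h1) (b.mono h1)
  choose f hf using hs
  let X : ∀ n, {x // Inv Λ w C n x} := fun n => Nat.rec ⟨0, h0⟩ f n
  have hX : ∀ n, J (n + 1) (X (n + 1)).1 ⊆ J n (X n).1 := fun n => hf n (X n)
  obtain ⟨ξ, hξ⟩ := IsCompact.nonempty_iInter_of_sequence_nonempty_isCompact_isClosed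
    (fun n => J n (X n).1) hX
    (fun n => Set.nonempty_Icc.2 (by have : (0 : ℝ) < 1 / 64 ^ n := by positivity
                                     linarith))
    isCompact_Icc (fun n => isClosed_Icc)
  rw [Set.mem_iInter] at hξ
  refine ⟨ξ, fun m i hi c hc => ?_⟩
  by_contra hlt
  push Not at hlt
  have hb : ∀ k : ℕ, w i * 8 ^ k ≤ 1 / 8 := by
    intro k
    have := (term_le_Phi hw (N := m + k + 1) (n := m + k) (by omega) hi
      ⟨c, hc, ξ, hξ (m + k), hlt⟩).trans (X (m + k)).2.1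
    rw [pow_add] at this
    have e : w i * (8 ^ m * 8 ^ k) / 8 ^ m = w i * 8 ^ k := by field_simp
    rwa [e] at this
  have hw0 : w i = 0 := by
    by_contra hne
    have hpos : 0 < w i := lt_of_le_of_ne (hw i) (Ne.symm hne)
    obtain ⟨k, hk⟩ := pow_unbounded_of_one_lt (1 / w i) (by norm_num : (1 : ℝ) < 8)
    have := hb k
    rw [div_lt_iff₀ hpos] at hk
    nlinarith
  simp [rad, hw0] at hlt
  linarith [abs_nonneg (ξ - c)]

end game

end Pool.Agent.Lib.MP_e56372_nt
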