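import Mathlib

set_option autoImplicit false

namespace Pool.Agent.Lib.MP_e56372_nt

/-- the quadratic irrational with all continued fraction digits equal to `K`. -/
noncomputable def z (K : ℕ) : ℝ := (√((K : ℝ) ^ 2 + 4) - K) / 2

section
variable {K : ℕ}

lemma z_eq (K : ℕ) : z K ^ 2 + K * z K = 1 := by
  have h := Real.sq_sqrt (show (0 : ℝ) ≤ (K : ℝ) ^ 2 + 4 by positivity)
  unfold z; nlinarith

lemma z_pos (K : ℕ) : 0 < z K := by
  have : (K : ℝ) < √((K : ℝ) ^ 2 + 4) := Real.lt_sqrt_of_sq_lt (by linarith)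
  unfold z; linarith

lemma Kz_lt (K : ℕ) : K * z K < 1 := by
  have := z_eq K; have := z_pos K; nlinarith

lemma z_le (hK : 4 ≤ K) : z K ≤ 1 / 4 := by
  have h : (4 : ℝ) ≤ K := by exact_mod_cast hK
  have := Kz_lt K; have := z_pos K; nlinarith

lemma z_irr (hK : 4 ≤ K) : Irrational (z K) := by
  have h : Irrational √((K ^ 2 + 4 : ℕ) : ℝ) := by
    rw [irrational_sqrt_natCast_iff]
    rintro ⟨r, hr⟩
    have h1 : K < r := by nlinarith
    have h2 : r < K + 1 := by nlinarith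
    omega
  have e : z K = (√((K ^ 2 + 4 : ℕ) : ℝ) - (K : ℕ)) / (2 : ℕ) := by
    unfold z; push_cast; rfl
  rw [e]
  exact (h.sub_natCast K).div_natCast (by norm_num)

lemma z_ne (hK : 4 ≤ K) {b : ℤ} (e : ℤ) (hb : b ≠ 0) : b * z K + e ≠ 0 := by
  have := ((z_irr hK).intCast_mul hb).add_intCast e
  exact this.ne_zero

lemma Z2 (hK : 4 ≤ K) {b : ℤ} (e : ℤ) (hb : b ≠ 0) :
    1 ≤ (K + 2) * |(b : ℝ)| * |b * z K + e| := by
  have hb1 : (1 : ℝ) ≤ |(b : ℝ)| := by
    rw [← Int.cast_abs]; exact_mod_cast Int.one_le_abs hb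
  have hK0 : (0 : ℝ) ≤ K := by positivity
  by_cases h1 : 1 ≤ |b * z K + e|
  · have : (1 : ℝ) ≤ (K + 2) * |(b : ℝ)| := by nlinarith
    nlinarith
  push Not at h1
  have hN : (b * z K + e) * (b * (-K - z K) + e) = ((e ^ 2 - K * b * e - b ^ 2 : ℤ) : ℝ) := by
    have := z_eq K
    push_cast
    linear_combination (-(b : ℝ) ^ 2) * this
  have h2 : b * (-K - z K) + e ≠ 0 := by
    have := z_ne hK (b * K - e) hb
    intro h; apply this; push_cast; linarith
  have hN0 : (e ^ 2 - K * b * e - b ^ 2 : ℤ) ≠ 0 := by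
    intro h
    rw [h] at hN
    exact mul_ne_zero (z_ne hK e hb) h2 (by simpa using hN)
  have h3 : (1 : ℝ) ≤ |b * z K + e| * |b * (-K - z K) + e| := by
    rw [← abs_mul, hN, ← Int.cast_abs]; exact_mod_cast Int.one_le_abs hN0
  have h4 : |b * (-K - z K) + e| ≤ (K + 2) * |(b : ℝ)| := by
    have e1 : b * (-K - z K) + e = (b * z K + e) - b * (K + 2 * z K) := by ring
    have := z_le hK
    have := z_pos K
    rw [e1]
    calc _ ≤ |b * z K + e| + |b * (K + 2 * z K)| := abs_sub _ _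
      _ = |b * z K + e| + |(b : ℝ)| * (K + 2 * z K) := by
          rw [abs_mul, abs_of_pos (by positivity : (0 : ℝ) < K + 2 * z K)]
      _ ≤ _ := by nlinarith
  nlinarith [abs_nonneg (b * z K + e)]

lemma unit (K m : ℕ) (b e : ℤ) : ∃ b1 e1 : ℤ, (b1 * z K + e1) * z K ^ m = b * z K + e ∧
    b1 * (-K - z K) + e1 = (b * (-K - z K) + e) * (-z K) ^ m := by
  induction m with
  | zero => exact ⟨b, e, by simp, by simp⟩
  | succ m ih =>
    obtain ⟨b1, e1, h1, h2⟩ := ih
    have := z_eq K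
    refine ⟨e1, b1 + e1 * K, ?_, ?_⟩
    · push_cast
      rw [← h1, pow_succ]
      linear_combination (e1 * z K ^ m) * this
    · push_cast
      rw [pow_succ, ← mul_assoc, ← h2]
      linear_combination (-(b1 : ℝ)) * this

lemma Z1 (hK : 4 ≤ K) {b : ℤ} (e : ℤ) (m : ℕ) (hb : b ≠ 0) (hm : |(b : ℝ)| * z K ^ m ≤ 1 / 2) :
    z K ^ m ≤ |b * z K + e| := by
  by_contra hlt
  push Not at hlt
  obtain ⟨b1, e1, h1, h2⟩ := unit K m b e
  have hz := z_pos K
  have hz4 := z_le hK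
  have hK4 : (4 : ℝ) ≤ K := by exact_mod_cast hK
  have hp : 0 < z K ^ m := pow_pos hz m
  have hp1 : z K ^ m ≤ 1 := pow_le_one₀ hz.le (by linarith)
  have h3 : |b1 * z K + e1| < 1 := by
    rw [← h1, abs_mul, abs_of_pos hp] at hlt
    nlinarith
  have h4 : |b1 * (-K - z K) + e1| ≤ (K + 2 * z K) / 2 + 1 := by
    rw [h2, abs_mul, abs_pow, abs_neg, abs_of_pos hz]
    have e1 : b * (-K - z K) + e = (b * z K + e) - b * (K + 2 * z K) := by ring
    have : |b * (-K - z K) + e| ≤ |b * z K + e| + |(b : ℝ)| * (K + 2 * z K) := by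
      rw [e1]
      calc _ ≤ |b * z K + e| + |b * (K + 2 * z K)| := abs_sub _ _
        _ = _ := by rw [abs_mul, abs_of_pos (by positivity : (0 : ℝ) < K + 2 * z K)]
    calc _ ≤ (|b * z K + e| + |(b : ℝ)| * (K + 2 * z K)) * z K ^ m :=
          mul_le_mul_of_nonneg_right this hp.le
      _ = |b * z K + e| * z K ^ m + (|(b : ℝ)| * z K ^ m) * (K + 2 * z K) := by ring
      _ ≤ 1 * 1 + (1 / 2) * (K + 2 * z K) := by
          gcongr
          linarith
      _ = _ := by ring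
  have h5 : |(b1 : ℝ)| * (K + 2 * z K) < (K + 2 * z K) / 2 + 2 := by
    have e1' : (b1 : ℝ) * (K + 2 * z K) = (b1 * z K + e1) - (b1 * (-K - z K) + e1) := by ring
    rw [← abs_of_pos (by positivity : (0 : ℝ) < K + 2 * z K), ← abs_mul, e1',
      abs_of_pos (by positivity : (0 : ℝ) < K + 2 * z K)]
    linarith [abs_sub (b1 * z K + e1) (b1 * (-K - z K) + e1)]
  have hb1 : b1 = 0 := by
    by_contra hne
    have : (1 : ℝ) ≤ |(b1 : ℝ)| := by
      rw [← Int.cast_abs]; exact_mod_cast Int.one_le_abs hne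
    nlinarith
  subst hb1
  have he1 : e1 = 0 := by
    by_contra hne
    have : (1 : ℝ) ≤ |(e1 : ℝ)| := by
      rw [← Int.cast_abs]; exact_mod_cast Int.one_le_abs hne
    simp at h3; linarith
  subst he1
  exact z_ne hK e hb (by simpa using h1.symm)

lemma dip (hK : 4 ≤ K) {m : ℕ} (hm : 1 ≤ m) : ∃ q : ℕ, ∃ r : ℤ, |q * z K - r| = z K ^ m ∧
    q * K * z K ^ m ≤ 2 ∧ 1 ≤ 2 * (K + 1) * q * z K ^ m := by
  obtain ⟨b, e, h1, h2⟩ := unit K m 0 1
  simp only [Int.cast_zero, zero_mul, Int.cast_one, zero_add, one_mul] at h1 h2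
  have hz := z_pos K
  have hz4 := z_le hK
  have hK4 : (4 : ℝ) ≤ K := by exact_mod_cast hK
  have hp : 0 < z K ^ m := pow_pos hz m
  have hp1 : z K ^ m ≤ 1 / 4 := by
    calc z K ^ m ≤ z K ^ 1 := pow_le_pow_of_le_one hz.le (by linarith) hm
      _ ≤ _ := by simpa using hz4
  have ha : |(-z K) ^ m| = z K ^ m := by rw [abs_pow, abs_neg, abs_of_pos hz]
  have h3 : b * (K + 2 * z K) * z K ^ m = 1 - (-z K) ^ m * z K ^ m := by
    rw [← h2]; linear_combination h1
  have h4 := abs_le.1 ha.le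
  have h5 : 1 / 2 ≤ b * (K + 2 * z K) * z K ^ m := by nlinarith
  have h6 : b * (K + 2 * z K) * z K ^ m ≤ 2 := by nlinarith
  have hb : (0 : ℝ) < b := by
    by_contra h
    push Not at h
    have : 0 ≤ (K + 2 * z K) * z K ^ m := by positivity
    nlinarith
  have hb' : 0 ≤ b := by exact_mod_cast hb.le
  lift b to ℕ using hb'
  refine ⟨b, e - b * K, ?_, ?_, ?_⟩
  · rw [← ha, ← h2, ← abs_neg]; congr 1; push_cast; ring
  · push_cast at *
    have : 0 ≤ (b : ℝ) * z K * z K ^ m := by positivity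
    nlinarith
  · push_cast at *
    have : 0 ≤ (b : ℝ) * z K ^ m := by positivity
    nlinarith

end

end Pool.Agent.Lib.MP_e56372_nt
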