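import Pool.Agent.Lib.MP_e56372_nt.Defs
import Pool.Agent.Lib.MP_e56372_nt.Core
import Pool.Agent.Lib.MP_e56372_nt.Zeta

set_option autoImplicit false
open Finset Filter Topology

namespace Pool.Agent.Lib.MP_e56372_nt

lemma mmin_le (ξ ζ : ℝ) {Q : ℝ} {q : ℕ} (h0 : 0 < q) (h : (q : ℝ) ≤ Q) :
    mmin ξ ζ Q ≤ |(q : ℝ) * ξ - round ((q : ℝ) * ξ)| * |(q : ℝ) * ζ - round ((q : ℝ) * ζ)| :=
  ciInf_le (f := fun q : {q : ℕ // 0 < q ∧ (q : ℝ) ≤ Q} =>
    |((q.1 : ℝ) * ξ) - (round ((q.1 : ℝ) * ξ) : ℝ)| *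
    |((q.1 : ℝ) * ζ) - (round ((q.1 : ℝ) * ζ) : ℝ)|)
    ⟨0, by rintro _ ⟨q, rfl⟩; positivity⟩ ⟨q, h0, h⟩

lemma le_mmin (ξ ζ : ℝ) {Q c : ℝ} (hQ : 1 ≤ Q) (h : ∀ q : ℕ, 0 < q → (q : ℝ) ≤ Q →
    c ≤ |(q : ℝ) * ξ - round ((q : ℝ) * ξ)| * |(q : ℝ) * ζ - round ((q : ℝ) * ζ)|) :
    c ≤ mmin ξ ζ Q := by
  have : Nonempty {q : ℕ // 0 < q ∧ (q : ℝ) ≤ Q} := ⟨⟨1, one_pos, by simpa using hQ⟩⟩
  exact le_ciInf fun q => h q.1 q.2.1 q.2.2

lemma mmin_anti (ξ ζ : ℝ) {Q Q' : ℝ} (hQ : 1 ≤ Q) (h : ⌊Q⌋₊ ≤ ⌊Q'⌋₊) (hQ' : 0 ≤ Q') :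
    mmin ξ ζ Q' ≤ mmin ξ ζ Q :=
  le_mmin ξ ζ hQ fun _ h0 hq => mmin_le ξ ζ h0
    ((Nat.le_floor_iff hQ').1 ((Nat.le_floor hq).trans h))

/-- discrete intermediate value property of `Q * mmin Q`. -/
lemma ivt (ξ ζ : ℝ) {Q c : ℝ} {q : ℕ} (hc : 0 < c) (h0 : 0 < q) (hq : (q : ℝ) ≤ Q)
    (h1 : q * mmin ξ ζ q ≤ c) (h2 : c ≤ Q * mmin ξ ζ Q) :
    ∃ Q' : ℝ, q ≤ Q' ∧ Q' ≤ Q ∧ Q' * mmin ξ ζ Q' = c := by
  classical
  have hq1 : (1 : ℝ) ≤ q := by exact_mod_cast h0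
  set N := Nat.findGreatest (fun N : ℕ => N * mmin ξ ζ N ≤ c) ⌊Q⌋₊ with hN
  have hqN : q ≤ N := Nat.le_findGreatest (Nat.le_floor hq) h1
  have hNc : N * mmin ξ ζ N ≤ c :=
    Nat.findGreatest_spec (P := fun N : ℕ => N * mmin ξ ζ N ≤ c) (Nat.le_floor hq) h1
  have hNQ : N ≤ ⌊Q⌋₊ := Nat.findGreatest_le _
  have hqN' : (q : ℝ) ≤ N := by exact_mod_cast hqN
  have hN1 : (1 : ℝ) ≤ N := by linarith
  have hQ0 : 0 < Q := by linarith
  have hm : mmin ξ ζ Q ≤ mmin ξ ζ N := mmin_anti ξ ζ hN1 (by simpa using hNQ) hQ0.le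
  have hm0 : 0 < mmin ξ ζ N := by
    have : 0 < Q * mmin ξ ζ Q := by linarith
    have := (mul_pos_iff_of_pos_left hQ0).1 this
    linarith
  have hA : (N : ℝ) ≤ c / mmin ξ ζ N := by rw [le_div_iff₀ hm0]; exact hNc
  have hB : c / mmin ξ ζ N ≤ Q := by rw [div_le_iff₀ hm0]; nlinarith
  have hC : c / mmin ξ ζ N < N + 1 := by
    rcases hNQ.lt_or_eq with h | h
    · have h3 : ¬ (((N + 1 : ℕ) : ℝ) * mmin ξ ζ (N + 1 : ℕ) ≤ c) :=
        Nat.findGreatest_is_greatest (P := fun N : ℕ => N * mmin ξ ζ N ≤ c) (Nat.lt_succ_self _) h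
      have h4 : mmin ξ ζ (N + 1 : ℕ) ≤ mmin ξ ζ N := mmin_anti ξ ζ hN1
        (by rw [Nat.floor_natCast, Nat.floor_natCast]; omega) (by positivity)
      rw [div_lt_iff₀ hm0]
      push_cast at h3 h4
      nlinarith
    · have := Nat.lt_floor_add_one Q
      rw [← h] at this; linarith
  have hF : ⌊c / mmin ξ ζ N⌋₊ = N := (Nat.floor_eq_iff (by linarith)).2 ⟨hA, hC⟩
  have hE : mmin ξ ζ (c / mmin ξ ζ N) = mmin ξ ζ N :=
    le_antisymm (mmin_anti ξ ζ hN1 (by simp [hF]) (by linarith))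
      (mmin_anti ξ ζ (by linarith) (by simp [hF]) (by linarith))
  exact ⟨c / mmin ξ ζ N, by linarith, hB, by rw [hE]; field_simp⟩

/-- the level attached to the exponent `m`. -/
noncomputable def lev (K m : ℕ) : ℝ := 1 / (2 * z K ^ m)

lemma lev_ge {K : ℕ} (hK : 4 ≤ K) {m : ℕ} (hm : 1 ≤ m) : (m : ℝ) ≤ lev K m := by
  have h1 : z K ^ m ≤ (1 / 4) ^ m := pow_le_pow_left₀ (z_pos K).le (z_le hK) m
  have h2 : 2 * m ≤ 4 ^ m := by
    obtain ⟨k, rfl⟩ := Nat.exists_eq_add_of_le' hm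
    have : k + 1 ≤ 2 ^ k := Nat.lt_two_pow_self
    have h3 : 2 ^ k ≤ 4 ^ k := Nat.pow_le_pow_left (by norm_num) k
    rw [pow_succ]; omega
  have h3 : (2 * m : ℝ) ≤ 4 ^ m := by exact_mod_cast h2
  have := pow_pos (z_pos K) m
  rw [div_pow, one_pow, le_div_iff₀ (by positivity)] at h1
  unfold lev
  rw [le_div_iff₀ (by positivity)]
  nlinarith

lemma lev_lt {K : ℕ} (hK : 4 ≤ K) {m m' : ℕ} (h : lev K m' ≤ lev K m ^ 12) : m' ≤ 12 * m := by
  by_contra hlt
  push Not at hlt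
  have hz := z_pos K
  have h1 : z K ^ m' ≤ z K ^ (12 * m) :=
    pow_le_pow_of_le_one hz.le (by linarith [z_le hK]) hlt.le
  unfold lev at h
  rw [div_pow, one_pow, mul_pow, ← pow_mul, mul_comm m,
    one_div_le_one_div (by positivity) (by positivity)] at h
  have := pow_pos hz (12 * m)
  nlinarith

lemma core2 {K : ℕ} (hK : 4 ≤ K) (m : ℕ → ℕ) (t : ℕ → ℝ) (hm : StrictMono m) (hm0 : 1 ≤ m 0)
    (t0 : ∀ k, 0 < t k) (t1 : ∀ k, t k ≤ 1 / 2 ^ 24)
    (hE : ∀ k, 2 ^ 33 * t k ^ 20 * (K + 2) < 1) (hQ : ∀ k, 1 ≤ t k ^ 20 * lev K (m k))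
    (hs : ∀ k, m k + 1024 * t k * m k ≤ m (k + 1)) :
    ∃ ξ : ℝ, ∀ k, t k ^ 12 ≤ lev K (m k) * mmin ξ (z K) (lev K (m k)) := by
  classical
  have hm1 : ∀ k, 1 ≤ m k := fun k => hm0.trans (hm.monotone (Nat.zero_le k))
  have hl1 : ∀ k, 1 ≤ lev K (m k) := fun k =>
    le_trans (by exact_mod_cast hm1 k) (lev_ge hK (hm1 k))
  let P : ℕ → ℕ → Prop := fun n k => 64 ^ n ≤ lev K (m k) ^ 3 ∧ lev K (m k) ≤ (64 ^ n) ^ 4
  let S : Setup :=
    { ζ := z K, κ := K + 2, Q := fun k => lev K (m k), t := t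
      act := fun n => (range ((64 ^ n) ^ 4 + 1)).filter (P n)
      hZ2 := fun b e hb => Z2 hK e hb
      hZ1 := fun k b e hb h => by
        have hp := pow_pos (z_pos K) (m k)
        simp only [lev] at h ⊢
        rw [le_div_iff₀ (by positivity)] at h
        have := Z1 hK e (m k) hb (by linarith)
        calc (1 : ℝ) = 2 * (1 / (2 * z K ^ m k)) * z K ^ m k := by field_simp
          _ ≤ _ := by gcongr
      t0 := t0, t1 := t1, hE := hE, hQ := hQ
      hact := fun n k h1 h2 => by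
        refine mem_filter.2 ⟨mem_range.2 (Nat.lt_succ_of_le ?_), h1, h2⟩
        have h3 : (k : ℝ) ≤ m k := by exact_mod_cast hm.id_le k
        have := (h3.trans (lev_ge hK (hm1 k))).trans h2
        exact_mod_cast this
      hsum := fun n => by
        set A := (range ((64 ^ n) ^ 4 + 1)).filter (P n) with hA
        rcases A.eq_empty_or_nonempty with h | h
        · rw [h]; simp
        set a := A.min' h
        set b := A.max' h
        have ha := (mem_filter.1 (A.min'_mem h)).2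
        have hb := (mem_filter.1 (A.max'_mem h)).2
        have hab : a ≤ b := A.min'_le_max' h
        have h12 : m b ≤ 12 * m a := lev_lt hK (by
          calc lev K (m b) ≤ (64 ^ n) ^ 4 := hb.2
            _ ≤ (lev K (m a) ^ 3) ^ 4 := pow_le_pow_left₀ (by positivity) ha.1 4
            _ = _ := by ring)
        have hsub : A ⊆ Ico a (b + 1) := fun k hk =>
          mem_Ico.2 ⟨A.min'_le k hk, Nat.lt_succ_of_le (A.le_max' k hk)⟩
        have h1 := sum_le_sum_of_subset_of_nonneg hsub (f := t) fun k _ _ => (t0 k).le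
        rw [sum_Ico_succ_top hab] at h1
        have hma : (0 : ℝ) < m a := by exact_mod_cast hm1 a
        have h2 : (∑ k ∈ Ico a b, t k) * (1024 * m a) ≤ m b - m a := by
          rw [sum_mul, ← sum_Ico_sub (fun k => (m k : ℝ)) hab]
          refine sum_le_sum fun k hk => ?_
          have h3 : (m a : ℝ) ≤ m k := by exact_mod_cast hm.monotone (mem_Ico.1 hk).1
          have := hs k
          have := t0 k
          nlinarith
        have h12' : (m b : ℝ) ≤ 12 * m a := by exact_mod_cast h12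
        have h4 : ∑ k ∈ Ico a b, t k ≤ 11 / 1024 := by
          by_contra h5; push Not at h5
          nlinarith
        have := t1 b
        norm_num at this ⊢
        linarith }
  obtain ⟨ξ, hξ⟩ := S.core
  refine ⟨ξ, fun k => ?_⟩
  have h0 : 0 < lev K (m k) := lt_of_lt_of_le one_pos (hl1 k)
  rw [← div_le_iff₀' h0]
  refine le_mmin _ _ (hl1 k) fun q hq hqQ => ?_
  rw [div_le_iff₀' h0]
  have := hξ k q (round ((q : ℝ) * ξ)) (round ((q : ℝ) * z K)) (by exact_mod_cast hq)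
    (by exact_mod_cast hqQ) (by
      have := abs_sub_round ((q : ℝ) * z K)
      push_cast; linarith)
  simpa using this

/-- exponents growing with relative step `s`. -/
noncomputable def seq (m0 : ℕ) (s : ℕ → ℝ) : ℕ → ℕ
  | 0 => m0
  | k + 1 => seq m0 s k + ⌈s (seq m0 s k) * seq m0 s k⌉₊

lemma seq_ge (m0 : ℕ) (s : ℕ → ℝ) (k : ℕ) : m0 ≤ seq m0 s k := by
  induction k with
  | zero => exact le_rfl
  | succ k ih => exact ih.trans (Nat.le_add_right _ _)

lemma seq_mono {m0 : ℕ} {s : ℕ → ℝ} (h0 : 1 ≤ m0) (hs : ∀ m, m0 ≤ m → 0 < s m) :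
    StrictMono (seq m0 s) := by
  refine strictMono_nat_of_lt_succ fun k => ?_
  have h1 : (0 : ℝ) < seq m0 s k := by exact_mod_cast h0.trans (seq_ge m0 s k)
  have := Nat.ceil_pos.2 (mul_pos (hs _ (seq_ge m0 s k)) h1)
  simp only [seq]; omega

lemma seq_step (m0 : ℕ) (s : ℕ → ℝ) (k : ℕ) :
    seq m0 s k + s (seq m0 s k) * seq m0 s k ≤ seq m0 s (k + 1) := by
  simp only [seq]; push_cast; linarith [Nat.le_ceil (s (seq m0 s k) * seq m0 s k)]

lemma seq_ratio {m0 : ℕ} {s : ℕ → ℝ} {σ : ℝ} (h0 : 1 ≤ m0) (hs : ∀ m, m0 ≤ m → 0 < s m)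
    (hσ : Tendsto s atTop (𝓝 σ)) :
    Tendsto (fun k => (seq m0 s (k + 1) : ℝ) / seq m0 s k) atTop (𝓝 (1 + σ)) := by
  have hT := (seq_mono h0 hs).tendsto_atTop
  have h1 : Tendsto (fun k => 1 + s (seq m0 s k)) atTop (𝓝 (1 + σ)) := (hσ.comp hT).const_add 1
  have h2 : Tendsto (fun k => 1 + s (seq m0 s k) + 1 / (seq m0 s k : ℝ)) atTop (𝓝 (1 + σ)) := by
    simpa using h1.add (tendsto_one_div_atTop_nhds_zero_nat.comp hT)
  have hp : ∀ k, (0 : ℝ) < seq m0 s k := fun k => by exact_mod_cast h0.trans (seq_ge m0 s k)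
  refine tendsto_of_tendsto_of_tendsto_of_le_of_le h1 h2 (fun k => ?_) (fun k => ?_)
  · simp only []
    rw [le_div_iff₀ (hp k)]; linarith [seq_step m0 s k]
  · simp only []
    rw [div_le_iff₀ (hp k)]
    have := Nat.ceil_lt_add_one (mul_pos (hs _ (seq_ge m0 s k)) (hp k)).le
    have e : (1 + s (seq m0 s k) + 1 / (seq m0 s k : ℝ)) * seq m0 s k
        = seq m0 s k + (s (seq m0 s k) * seq m0 s k + 1) := by have := hp k; field_simp; ring
    rw [e]; simp only [seq]; push_cast; linarith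

lemma log_ratio {K : ℕ} (hK : 4 ≤ K) {m : ℕ → ℕ} {Q : ℕ → ℝ} {r B : ℝ} (hB : 0 < B)
    (hm : Tendsto m atTop atTop) (hr : Tendsto (fun k => (m (k + 1) : ℝ) / m k) atTop (𝓝 r))
    (h1 : ∀ k, 1 ≤ B * Q k * z K ^ m k) (h2 : ∀ k, Q k ≤ lev K (m k)) :
    Tendsto Q atTop atTop ∧
    Tendsto (fun k => Real.log (Q (k + 1)) / Real.log (Q k)) atTop (𝓝 r) := by
  have hz := z_pos K
  have hz1 : z K < 1 := by linarith [z_le hK]
  set L := -Real.log (z K) with hL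
  have hL0 : 0 < L := neg_pos.2 (Real.log_neg hz hz1)
  have hQ0 : ∀ k, 0 < Q k := fun k => by
    by_contra h; push Not at h
    have := h1 k
    have h3 : 0 < B * z K ^ m k := by positivity
    nlinarith
  have lo : ∀ k, m k * L - Real.log B ≤ Real.log (Q k) := fun k => by
    have := Real.log_nonneg (h1 k)
    rw [Real.log_mul (by have := hQ0 k; positivity) (by positivity),
      Real.log_mul hB.ne' (hQ0 k).ne', Real.log_pow] at this
    rw [hL]; linarith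
  have hi : ∀ k, Real.log (Q k) ≤ m k * L := fun k => by
    have h3 : Q k * z K ^ m k ≤ 1 := by
      have := h2 k
      have hp := pow_pos hz (m k)
      unfold lev at this
      rw [le_div_iff₀ (by positivity)] at this
      have := mul_pos (hQ0 k) hp
      linarith
    have := Real.log_nonpos (by have := hQ0 k; positivity) h3
    rw [Real.log_mul (hQ0 k).ne' (by positivity), Real.log_pow] at this
    rw [hL]; linarith
  have hmR : Tendsto (fun k => (m k : ℝ)) atTop atTop := tendsto_natCast_atTop_atTop.comp hm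
  have hpos : ∀ᶠ k in atTop, (0 : ℝ) < m k := hmR.eventually_gt_atTop 0
  have hq : Tendsto (fun k => Real.log (Q k) / m k) atTop (𝓝 L) := by
    have h3 : Tendsto (fun k => L - Real.log B / m k) atTop (𝓝 L) := by
      simpa using (hmR.const_div_atTop (Real.log B)).const_sub L
    refine tendsto_of_tendsto_of_tendsto_of_le_of_le' h3 tendsto_const_nhds ?_ ?_
    · filter_upwards [hpos] with k hk
      rw [le_div_iff₀ hk, sub_mul, div_mul_cancel₀ _ hk.ne']; linarith [lo k]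
    · filter_upwards [hpos] with k hk
      rw [div_le_iff₀ hk]; linarith [hi k]
  constructor
  · have h3 : Tendsto (fun k => Real.log (Q k)) atTop atTop :=
      tendsto_atTop_mono lo (tendsto_atTop_add_const_right _ _ (hmR.atTop_mul_const hL0))
    refine (Real.tendsto_exp_atTop.comp h3).congr fun k => Real.exp_log (hQ0 k)
  · have h3 := ((hq.comp (tendsto_add_atTop_nat 1)).mul hr).div hq hL0.ne'
    rw [mul_div_cancel_left₀ _ hL0.ne'] at h3
    refine h3.congr' ?_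
    filter_upwards [hpos, (tendsto_add_atTop_nat 1).eventually hpos] with k hk hk'
    simp only [Function.comp, Pi.div_apply]
    by_cases h : Real.log (Q k) = 0
    · simp [h]
    · field_simp

theorem partA {θ : ℝ} (hθ : 0 < θ) : ∃ ξ ζ : ℝ, ∃ Q : ℕ → ℝ, (∀ k, 1 ≤ Q k) ∧
    Tendsto Q atTop atTop ∧
    Tendsto (fun k => Real.log (Q (k + 1)) / Real.log (Q k)) atTop (𝓝 (1 + θ)) ∧
    ∃ L : ℝ, 0 < L ∧ ∀ k, Q k * mmin ξ ζ (Q k) = L := by
  obtain ⟨M, hM1, hM2⟩ : ∃ M : ℕ, 2 ^ 24 ≤ M ∧ 1024 / θ ≤ M :=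
    ⟨max (2 ^ 24) ⌈1024 / θ⌉₊, le_max_left _ _,
      (Nat.le_ceil _).trans (by exact_mod_cast le_max_right _ _)⟩
  have hM : (2 : ℝ) ^ 24 ≤ M := by exact_mod_cast hM1
  have hM0 : (0 : ℝ) < M := by linarith [show (0 : ℝ) < 2 ^ 24 by positivity]
  have hM4 : 4 ≤ M := le_trans (by norm_num) hM1
  have hK : 4 ≤ M ^ 12 := hM4.trans (Nat.le_self_pow (by norm_num) M)
  have h20 : 1 ≤ M ^ 20 := Nat.one_le_pow _ _ (by omega)
  set K := M ^ 12 with hKd
  have hKR : (K : ℝ) = M ^ 12 := by rw [hKd]; push_cast; rfl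
  have hK4 : (4 : ℝ) ≤ K := by exact_mod_cast hK
  set m := seq (M ^ 20) (fun _ => θ) with hm
  have hmono : StrictMono m := seq_mono h20 fun _ _ => hθ
  have hm1 : ∀ k, 1 ≤ m k := fun k => h20.trans (seq_ge _ _ k)
  obtain ⟨ξ, hξ⟩ := core2 hK m (fun _ => 1 / M) hmono (hm1 0) (fun _ => by positivity)
    (fun _ => one_div_le_one_div_of_le (by positivity) hM) (fun _ => by
      have h1 : (2 : ℝ) ^ 35 ≤ M ^ 8 := by
        calc (2 : ℝ) ^ 35 ≤ (2 ^ 24) ^ 8 := by norm_num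
          _ ≤ _ := pow_le_pow_left₀ (by positivity) hM 8
      have h2 : (K : ℝ) + 2 ≤ 2 * M ^ 12 := by linarith
      calc _ ≤ 2 ^ 33 * (1 / (M : ℝ)) ^ 20 * (2 * M ^ 12) := by gcongr
        _ = 2 ^ 34 / M ^ 8 := by field_simp
        _ < 1 := by rw [div_lt_one (by positivity)]; linarith) (fun k => by
      have h1 : ((M ^ 20 : ℕ) : ℝ) ≤ m k := by exact_mod_cast seq_ge _ _ k
      have h2 := lev_ge hK (hm1 k)
      push_cast at h1
      rw [div_pow, one_pow, one_div, ← div_eq_inv_mul, le_div_iff₀ (by positivity)]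
      linarith) (fun k => by
      have h1 := seq_step (M ^ 20) (fun _ => θ) k
      have h2 : 1024 * (1 / (M : ℝ)) ≤ θ := by
        rw [div_le_iff₀ hθ] at hM2
        rw [mul_one_div, div_le_iff₀ hM0]; linarith
      have h3 : (0 : ℝ) ≤ m k := by positivity
      simp only [← hm] at h1
      nlinarith)
  have hc : (1 / (M : ℝ)) ^ 12 = 1 / K := by rw [hKR, div_pow, one_pow]
  have key : ∀ k, ∃ Q : ℝ, 1 ≤ Q ∧ 1 ≤ 2 * (K + 1) * Q * z K ^ m k ∧ Q ≤ lev K (m k) ∧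
      Q * mmin ξ (z K) Q = 1 / K := by
    intro k
    obtain ⟨q, r, d1, d2, d3⟩ := dip hK (hm1 k)
    have hp := pow_pos (z_pos K) (m k)
    have hq0 : 0 < q := by
      rcases Nat.eq_zero_or_pos q with h | h
      · rw [h] at d3; norm_num at d3
      · exact h
    have hq1 : (1 : ℝ) ≤ q := by exact_mod_cast hq0
    have hql : (q : ℝ) ≤ lev K (m k) := by
      unfold lev
      rw [le_div_iff₀ (by positivity)]
      have : 0 < q * z K ^ m k := by positivity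
      nlinarith
    obtain ⟨Q, a, b, c⟩ := ivt ξ (z K) (c := 1 / K) (by positivity) hq0 hql (by
      have h1 := mmin_le ξ (z K) hq0 le_rfl
      have h2 := abs_sub_round ((q : ℝ) * ξ)
      have h3 := (round_le ((q : ℝ) * z K) r).trans d1.le
      have h4 : mmin ξ (z K) q ≤ 1 / 2 * z K ^ m k := h1.trans (by gcongr)
      rw [le_div_iff₀ (by positivity)]
      calc q * mmin ξ (z K) q * K ≤ q * (1 / 2 * z K ^ m k) * K := by gcongr
        _ ≤ 1 := by linarith) (hc ▸ hξ k)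
    exact ⟨Q, by linarith, d3.trans (by gcongr), b, c⟩
  choose Q a b c d using key
  obtain ⟨h1, h2⟩ := log_ratio hK (by positivity) hmono.tendsto_atTop
    (seq_ratio h20 (fun _ _ => hθ) tendsto_const_nhds) b c
  exact ⟨ξ, z K, Q, a, h1, h2, 1 / K, by positivity, d⟩

theorem partB {ω : ℝ → ℝ} (hω : Tendsto ω atTop atTop) : ∃ ξ ζ : ℝ, ∃ Q : ℕ → ℝ,
    (∀ k, 1 ≤ Q k) ∧ Tendsto Q atTop atTop ∧
    Tendsto (fun k => Real.log (Q (k + 1)) / Real.log (Q k)) atTop (𝓝 1) ∧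
    ∀ k, 1 ≤ ω (Q k) * (Q k * mmin ξ ζ (Q k)) := by
  have hK : 4 ≤ 4 := le_rfl
  have hl : Tendsto (lev 4) atTop atTop := by
    refine tendsto_atTop_mono' atTop ?_ tendsto_natCast_atTop_atTop
    filter_upwards [eventually_ge_atTop 1] with m hm using lev_ge hK hm
  let t : ℕ → ℝ := fun m => max (ω (lev 4 m) ^ (-(1 / 12 : ℝ))) (lev 4 m ^ (-(1 / 20 : ℝ)))
  have ht : Tendsto t atTop (𝓝 0) := by
    have := ((tendsto_rpow_neg_atTop (by norm_num : (0 : ℝ) < 1 / 12)).comp (hω.comp hl)).max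
      ((tendsto_rpow_neg_atTop (by norm_num : (0 : ℝ) < 1 / 20)).comp hl)
    rw [max_self] at this
    exact this
  obtain ⟨m0, hm0⟩ := eventually_atTop.1 ((ht.eventually (ge_mem_nhds
    (by positivity : (0 : ℝ) < 1 / 2 ^ 24))).and (((hω.comp hl).eventually_gt_atTop 0).and
    (eventually_ge_atTop 1)))
  have h1 : 1 ≤ m0 := (hm0 m0 le_rfl).2.2
  have hl0 : ∀ m, 0 < lev 4 m := fun m => by unfold lev; have := z_pos 4; positivity
  have t0 : ∀ m, 0 < t m := fun m => lt_max_of_lt_right (Real.rpow_pos_of_pos (hl0 m) _)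
  set m := seq m0 (fun m => 1024 * t m) with hm
  have hs : ∀ m, m0 ≤ m → 0 < 1024 * t m := fun m _ => by have := t0 m; positivity
  have hmono : StrictMono m := seq_mono h1 hs
  have hg : ∀ k, m0 ≤ m k := seq_ge _ _
  obtain ⟨ξ, hξ⟩ := core2 hK m (fun k => t (m k)) hmono (h1.trans (hg 0)) (fun _ => t0 _)
    (fun k => (hm0 _ (hg k)).1) (fun k => by
      have h2 : t (m k) ^ 20 ≤ (1 / 2 ^ 24) ^ 20 := pow_le_pow_left₀ (t0 _).le (hm0 _ (hg k)).1 20
      calc _ ≤ 2 ^ 33 * (1 / 2 ^ 24 : ℝ) ^ 20 * ((4 : ℕ) + 2) := by gcongr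
        _ < 1 := by norm_num) (fun k => by
      have h2 : (lev 4 (m k) ^ (-(1 / 20 : ℝ))) ^ 20 ≤ t (m k) ^ 20 :=
        pow_le_pow_left₀ (Real.rpow_pos_of_pos (hl0 _) _).le (le_max_right _ _) 20
      rw [← Real.rpow_natCast, ← Real.rpow_mul (hl0 _).le] at h2
      norm_num at h2
      rw [Real.rpow_neg_one, inv_le_iff_one_le_mul₀ (hl0 _)] at h2
      exact h2) (seq_step _ _)
  obtain ⟨a, b⟩ := log_ratio hK (m := m) (Q := fun k => lev 4 (m k)) (B := 2) two_pos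
    hmono.tendsto_atTop (seq_ratio h1 hs (by simpa using ht.const_mul 1024))
    (fun k => by unfold lev; have := z_pos 4; exact le_of_eq (by field_simp)) (fun k => le_rfl)
  refine ⟨ξ, z 4, fun k => lev 4 (m k), fun k => le_trans (by exact_mod_cast h1.trans (hg k))
    (lev_ge hK (h1.trans (hg k))), a, by simpa using b, fun k => ?_⟩
  have hw : 0 < ω (lev 4 (m k)) := (hm0 _ (hg k)).2.1
  have h2 : (ω (lev 4 (m k)) ^ (-(1 / 12 : ℝ))) ^ 12 ≤ t (m k) ^ 12 :=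
    pow_le_pow_left₀ (Real.rpow_pos_of_pos hw _).le (le_max_left _ _) 12
  rw [← Real.rpow_natCast, ← Real.rpow_mul hw.le] at h2
  norm_num at h2
  rw [Real.rpow_neg_one, inv_le_iff_one_le_mul₀' hw] at h2
  exact h2.trans (mul_le_mul_of_nonneg_left (hξ k) hw.le)

end Pool.Agent.Lib.MP_e56372_nt
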